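import Pool.Agent.helper71.Bis.Rounding

set_option autoImplicit false

/-!
# A spread set of given size, for a family of neighbour sets

In a set `Z` of vertices of bounded degree there is a subset of size `N ≤ |Z| / 2 ^ j` which takes at
most about a fraction `2 ^ (-j)` of every member of a given family of sets of neighbours: the whole
neighbourhood for a vertex of bounded degree, a chosen set `Y h` of neighbours for every other
vertex `h`. The proof is that of `Pool.Agent.helper14.LE.spread`.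
-/

namespace Pool.Agent.helper83.Bis

open Finset Pool.Agent.helper2.Bis Pool.Agent.helper71.Bis

/-- halving with the local lemma, for a family `W` of sets of neighbours -/
theorem halve_fam {V : Type} [Fintype V] [DecidableEq V] (R : V → V → Prop)
    (hsymm : ∀ u v, R u v → R v u) (m D : ℕ) (a : ℝ) (ha : 0 < a) (ha2 : a ≤ 1 / 2)
    (W : V → Finset V) (hW : ∀ v, W v ⊆ nb R v) (hWm : ∀ v, m ≤ (W v).card)
    (hWD : ∀ v, (W v).card ≤ D)
    (hP : 4 * Real.exp (-(a ^ 2 * m)) * (2 * (D : ℝ) ^ 2 + 1) ≤ 1)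
    (Z : Finset V) (hZD : ∀ v ∈ Z, dg R v ≤ D) (M : ℕ) (hZ : Z.card = 2 * M) :
    ∃ Z' ⊆ Z, Z'.card = M ∧ ∀ v,
      ((W v ∩ Z').card : ℝ) ≤ (W v ∩ Z).card / 2 + a * (W v).card := by
  classical
  obtain ⟨Z1, Z2, φ, hdisj, hZ12, himg, hinj0⟩ := exists_pairing Z (by
    rw [hZ]
    exact even_two_mul M)
  have hZ1Z : ∀ v ∈ Z1, v ∈ Z := fun v hv => by
    rw [← hZ12]
    exact Finset.mem_union_left _ hv
  have hZ2Z : ∀ v ∈ Z2, v ∈ Z := fun v hv => by
    rw [← hZ12]
    exact Finset.mem_union_right _ hv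
  have hφ : ∀ v ∈ Z2, φ v ∈ Z1 := fun v hv => by
    rw [← himg]
    exact Finset.mem_image_of_mem _ hv
  have hZ1M : Z1.card = M := by
    have h1 : Z1.card + Z2.card = Z.card := by
      rw [← hZ12, Finset.card_union_of_disjoint hdisj]
    have h2 : Z1.card = Z2.card := by
      rw [← himg, Finset.card_image_of_injOn hinj0]
    omega
  set ρ : V → V := fun v => if v ∈ Z2 then φ v else v with hρdef
  have hρ2 : ∀ v, v ∈ Z2 → ρ v = φ v := fun v hv => by simp [hρdef, hv]
  have hρ : ∀ v, v ∉ Z2 → ρ v = v := fun v hv => by simp [hρdef, hv]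
  have hinj : Set.InjOn ρ (Z2 : Set V) := by
    intro a ha b hb hab
    have ha' : a ∈ Z2 := by exact_mod_cast ha
    have hb' : b ∈ Z2 := by exact_mod_cast hb
    rw [hρ2 a ha', hρ2 b hb'] at hab
    exact hinj0 ha hb hab
  set p : V → ℝ := fun _ => 1 / 2 with hpdef
  have hp : ∀ i, 0 ≤ p i ∧ p i ≤ 1 := fun i => by
    simp only [hpdef]
    constructor <;> norm_num
  set Yv : V → Finset V := fun v => W v ∩ Z with hYv
  have hYcard : ∀ v, (Yv v).card ≤ D := fun v =>
    (Finset.card_le_card Finset.inter_subset_left).trans (hWD v)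
  set Bad : V → (V → Bool) → Prop := fun v ω =>
    a * (W v).card ≤ 1 * dv Z2 ρ p (Yv v) ω with hBad
  have hprob : ∀ v, Pr p (Bad v) ≤ Real.exp (-(a ^ 2 * m)) := by
    intro v
    have hcard : ((Yv v).card : ℝ) ≤ ((W v).card : ℝ) := by
      have : (Yv v).card ≤ (W v).card := Finset.card_le_card Finset.inter_subset_left
      exact_mod_cast this
    have h2 := dv_tail Z2 ρ hinj hρ p hp (Yv v) 1 (Or.inl rfl) (2 * a) (by linarith)
      (by linarith) (a * (W v).card) ((W v).card) hcard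
    refine h2.trans (Real.exp_le_exp.2 ?_)
    have hdm : (m : ℝ) ≤ ((W v).card : ℝ) := by exact_mod_cast hWm v
    have h3 : a ^ 2 * m ≤ a ^ 2 * (W v).card := mul_le_mul_of_nonneg_left hdm (by positivity)
    nlinarith
  obtain ⟨ω, hω⟩ := lll p hp Bad (fun v => (Yv v).image ρ) (by
    intro v ω ω' h
    have e1 : dv Z2 ρ p (Yv v) ω = dv Z2 ρ p (Yv v) ω' := by
      simp only [dv]
      refine Finset.sum_congr rfl fun w hw => ?_
      rw [h (ρ w) (Finset.mem_image_of_mem _ hw)]
    simp only [hBad, e1]) (Real.exp (-(a ^ 2 * m))) hprob (2 * D ^ 2) (by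
    intro v
    set N : Finset V := ((Yv v).image ρ).biUnion (fun i =>
      (Z.filter (fun w => ρ w = i)).biUnion (fun w => nb R w)) with hN
    have h1 : {v' : V | ¬ Disjoint ((Yv v).image ρ) ((Yv v').image ρ)} ⊆ (N : Set V) := by
      intro v' hv'
      rw [Set.mem_ofPred_eq, Finset.not_disjoint_iff] at hv'
      obtain ⟨i, hi, hi'⟩ := hv'
      rw [Finset.mem_image] at hi'
      obtain ⟨w, hw, hw'⟩ := hi'
      rw [hYv, Finset.mem_inter] at hw
      rw [Finset.mem_coe, hN, Finset.mem_biUnion]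
      refine ⟨i, hi, ?_⟩
      rw [Finset.mem_biUnion]
      refine ⟨w, Finset.mem_filter.2 ⟨hw.2, hw'⟩, ?_⟩
      exact mem_nb.2 (hsymm _ _ (mem_nb.1 (hW v' hw.1)))
    refine (Set.ncard_le_ncard h1 (Finset.finite_toSet _)).trans ?_
    rw [Set.ncard_coe_finset]
    have h2 : ∀ i, (Z.filter (fun w => ρ w = i)).card ≤ 2 := by
      intro i
      have e1 : ((Z.filter (fun w => ρ w = i)).filter (fun w => w ∈ Z2)).card ≤ 1 := by
        rw [Finset.card_le_one]
        intro a ha b hb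
        simp only [Finset.mem_filter] at ha hb
        exact hinj (by exact_mod_cast ha.2) (by exact_mod_cast hb.2) (ha.1.2.trans hb.1.2.symm)
      have e2 : ((Z.filter (fun w => ρ w = i)).filter (fun w => ¬ w ∈ Z2)).card ≤ 1 := by
        rw [Finset.card_le_one]
        intro a ha b hb
        simp only [Finset.mem_filter] at ha hb
        rw [← hρ a ha.2, ← hρ b hb.2, ha.1.2, hb.1.2]
      have e3 := Finset.card_filter_add_card_filter_not (s := Z.filter (fun w => ρ w = i))
        (fun w => w ∈ Z2)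
      omega
    have h3 : ∀ i ∈ (Yv v).image ρ, ((Z.filter (fun w => ρ w = i)).biUnion
        (fun w => nb R w)).card ≤ 2 * D := by
      intro i _
      refine (Finset.card_biUnion_le_card_mul _ _ D fun w hw => ?_).trans
        (Nat.mul_le_mul_right _ (h2 i))
      exact hZD w (Finset.mem_filter.1 hw).1
    have h4 : ((Yv v).image ρ).card ≤ D := Finset.card_image_le.trans (hYcard v)
    refine (Finset.card_biUnion_le_card_mul _ _ (2 * D) h3).trans ?_
    calc ((Yv v).image ρ).card * (2 * D) ≤ D * (2 * D) := Nat.mul_le_mul_right _ h4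
      _ = 2 * D ^ 2 := by ring) (by
    push_cast
    exact hP)
  -- the chosen set
  set Z' : Finset V := Z.filter (fun w => if w ∈ Z2 then ω (ρ w) = false else ω (ρ w) = true)
    with hZ'
  refine ⟨Z', Finset.filter_subset _ _, ?_, ?_⟩
  · have e1 : Z' = Z1.filter (fun w => ω w = true) ∪ Z2.filter (fun w => ω (φ w) = false) := by
      ext w
      simp only [hZ', Finset.mem_filter, Finset.mem_union]
      constructor
      · rintro ⟨h1, h2⟩
        by_cases h3 : w ∈ Z2
        · right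
          rw [if_pos h3, hρ2 w h3] at h2
          exact ⟨h3, h2⟩
        · left
          rw [if_neg h3, hρ w h3] at h2
          rw [← hZ12, Finset.mem_union] at h1
          exact ⟨h1.resolve_right h3, h2⟩
      · rintro (⟨h1, h2⟩ | ⟨h1, h2⟩)
        · have h3 : w ∉ Z2 := fun h => Finset.disjoint_left.1 hdisj h1 h
          rw [if_neg h3, hρ w h3]
          exact ⟨hZ1Z w h1, h2⟩
        · rw [if_pos h1, hρ2 w h1]
          exact ⟨hZ2Z w h1, h2⟩
    have e2 : (Z2.filter (fun w => ω (φ w) = false)).card =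
        (Z1.filter (fun w => ω w = false)).card := by
      have h1 : (Z2.filter (fun w => ω (φ w) = false)).image φ =
          Z1.filter (fun w => ω w = false) := by
        ext w
        simp only [Finset.mem_image, Finset.mem_filter]
        constructor
        · rintro ⟨x, ⟨h1, h2⟩, rfl⟩
          exact ⟨hφ x h1, h2⟩
        · rintro ⟨h1, h2⟩
          rw [← himg, Finset.mem_image] at h1
          obtain ⟨x, hx, rfl⟩ := h1
          exact ⟨x, ⟨hx, h2⟩, rfl⟩
      rw [← h1, Finset.card_image_of_injOn]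
      intro x hx y hy hxy
      have hx' := (Finset.mem_filter.1 (Finset.mem_coe.1 hx)).1
      have hy' := (Finset.mem_filter.1 (Finset.mem_coe.1 hy)).1
      exact hinj0 (by exact_mod_cast hx') (by exact_mod_cast hy') hxy
    have e3 : Disjoint (Z1.filter (fun w => ω w = true)) (Z2.filter (fun w => ω (φ w) = false)) :=
      Finset.disjoint_of_subset_left (Finset.filter_subset _ _)
        (Finset.disjoint_of_subset_right (Finset.filter_subset _ _) hdisj)
    have e4 := Finset.card_filter_add_card_filter_not (s := Z1) (fun w => ω w = true)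
    have e5 : Z1.filter (fun w => ¬ ω w = true) = Z1.filter (fun w => ω w = false) := by
      ext w
      simp
    rw [e1, Finset.card_union_of_disjoint e3, e2, ← hZ1M, ← e4, e5]
  · intro v
    have hnb : ¬ (a * (W v).card ≤ 1 * dv Z2 ρ p (Yv v) ω) := fun h => hω v h
    rw [not_le, one_mul] at hnb
    have e1 : ((W v ∩ Z').card : ℝ) = (W v ∩ Z).card / 2 + dv Z2 ρ p (W v ∩ Z) ω := by
      have h1 : W v ∩ Z' = (W v ∩ Z).filter
          (fun w => if w ∈ Z2 then ω (ρ w) = false else ω (ρ w) = true) := by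
        ext w
        simp only [hZ', Finset.mem_filter, Finset.mem_inter]
        tauto
      rw [h1, Finset.card_filter]
      push_cast
      have h2 : ((W v ∩ Z).card : ℝ) / 2 = ∑ w ∈ W v ∩ Z, (1 / 2 : ℝ) := by
        rw [Finset.sum_const, nsmul_eq_mul]
        ring
      rw [h2]
      unfold dv
      rw [← Finset.sum_add_distrib]
      refine Finset.sum_congr rfl fun w _ => ?_
      simp only [hpdef, ind]
      by_cases h3 : w ∈ Z2
      · by_cases h4 : ω (ρ w) = true
        · norm_num [h3, h4]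
        · rw [Bool.not_eq_true] at h4
          norm_num [h3, h4]
      · by_cases h4 : ω (ρ w) = true
        · norm_num [h3, h4]
        · rw [Bool.not_eq_true] at h4
          norm_num [h3, h4]
    have e2 : dv Z2 ρ p (Yv v) ω = dv Z2 ρ p (W v ∩ Z) ω := rfl
    linarith

/-- a spread set of given size, exact power -/
theorem spread_fam_aux {V : Type} [Fintype V] [DecidableEq V] (R : V → V → Prop)
    (hsymm : ∀ u v, R u v → R v u) (m D : ℕ) (a : ℝ) (ha : 0 < a) (ha2 : a ≤ 1 / 2)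
    (W : V → Finset V) (hW : ∀ v, W v ⊆ nb R v) (hWm : ∀ v, m ≤ (W v).card)
    (hWD : ∀ v, (W v).card ≤ D)
    (hP : 4 * Real.exp (-(a ^ 2 * m)) * (2 * (D : ℝ) ^ 2 + 1) ≤ 1) (N : ℕ) :
    ∀ (j : ℕ) (Z : Finset V), (∀ v ∈ Z, dg R v ≤ D) → Z.card = N * 2 ^ j →
    ∃ K' ⊆ Z, K'.card = N ∧ ∀ v,
      ((W v ∩ K').card : ℝ) ≤
        (W v ∩ Z).card / 2 ^ j + 2 * a * (1 - 1 / 2 ^ j) * (W v).card := by
  intro j
  induction j with
  | zero =>
    intro Z hZD hZ
    refine ⟨Z, Finset.Subset.refl _, by simpa using hZ, fun v => ?_⟩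
    simp
  | succ j ih =>
    intro Z hZD hZ
    obtain ⟨Z', hZ'Z, hZ'c, hZ'⟩ := halve_fam R hsymm m D a ha ha2 W hW hWm hWD hP Z hZD
      (N * 2 ^ j) (by
        rw [hZ, pow_succ]
        ring)
    obtain ⟨K', hK'Z, hK'c, hK'⟩ := ih Z' (fun v hv => hZD v (hZ'Z hv)) hZ'c
    refine ⟨K', hK'Z.trans hZ'Z, hK'c, fun v => ?_⟩
    have h1 := hK' v
    have h2 := hZ' v
    have h3 : (0 : ℝ) < 2 ^ j := by positivity
    have h4 : ((W v ∩ Z').card : ℝ) / 2 ^ j ≤
        ((W v ∩ Z).card / 2 + a * (W v).card) / 2 ^ j := by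
      gcongr
    have h5 : ((W v ∩ Z).card / 2 + a * (W v).card) / (2 : ℝ) ^ j +
        2 * a * (1 - 1 / 2 ^ j) * (W v).card =
        (W v ∩ Z).card / 2 ^ (j + 1) + 2 * a * (1 - 1 / 2 ^ (j + 1)) * (W v).card := by
      rw [pow_succ]
      field_simp
      ring
    linarith

/-- a spread set of given size, for a family `W` of sets of neighbours -/
theorem spread_family {V : Type} [Fintype V] [DecidableEq V] (R : V → V → Prop)
    (hsymm : ∀ u v, R u v → R v u) (m D : ℕ) (a : ℝ) (ha : 0 < a) (ha2 : a ≤ 1 / 2)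
    (W : V → Finset V) (hW : ∀ v, W v ⊆ nb R v) (hWm : ∀ v, m ≤ (W v).card)
    (hWD : ∀ v, (W v).card ≤ D)
    (hP : 4 * Real.exp (-(a ^ 2 * m)) * (2 * (D : ℝ) ^ 2 + 1) ≤ 1)
    (Z : Finset V) (hZD : ∀ v ∈ Z, dg R v ≤ D) (j N : ℕ) (hN : N * 2 ^ j ≤ Z.card) :
    ∃ K' ⊆ Z, K'.card = N ∧ ∀ v, ((W v ∩ K').card : ℝ) ≤ (1 / 2 ^ j + 2 * a) * (W v).card := by
  classical
  obtain ⟨Z0, hZ0, hZ0c⟩ := Finset.exists_subset_card_eq hN
  obtain ⟨K', hK', hK'c, hK'n⟩ := spread_fam_aux R hsymm m D a ha ha2 W hW hWm hWD hP N j Z0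
    (fun v hv => hZD v (hZ0 hv)) hZ0c
  refine ⟨K', hK'.trans hZ0, hK'c, fun v => (hK'n v).trans ?_⟩
  have h1 : ((W v ∩ Z0).card : ℝ) ≤ ((W v).card : ℝ) := by
    have : (W v ∩ Z0).card ≤ (W v).card := Finset.card_le_card Finset.inter_subset_left
    exact_mod_cast this
  have h2 : (0 : ℝ) < 2 ^ j := by positivity
  have h3 : ((W v ∩ Z0).card : ℝ) / 2 ^ j ≤ ((W v).card : ℝ) / 2 ^ j := by gcongr
  have h4 : (0 : ℝ) ≤ 2 * a * (1 / 2 ^ j) * ((W v).card : ℝ) := by positivity
  have h5 : (1 / 2 ^ j + 2 * a) * ((W v).card : ℝ) = ((W v).card : ℝ) / 2 ^ j +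
      2 * a * (1 - 1 / 2 ^ j) * (W v).card + 2 * a * (1 / 2 ^ j) * (W v).card := by ring
  linarith

/-- a spread set of given size: it takes few neighbours of every vertex outside `H`, and few
elements of the chosen set `Y h` of neighbours of every `h ∈ H` -/
theorem spread_fam {V : Type} [Fintype V] [DecidableEq V] (R : V → V → Prop)
    (hsymm : ∀ u v, R u v → R v u) (H : Finset V) (m D : ℕ) (a : ℝ) (ha : 0 < a) (ha2 : a ≤ 1 / 2)
    (hdeg : ∀ v, m ≤ dg R v) (hD : ∀ v, v ∉ H → dg R v ≤ D)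
    (hP : 4 * Real.exp (-(a ^ 2 * m)) * (2 * (D : ℝ) ^ 2 + 1) ≤ 1)
    (Y : V → Finset V) (hY : ∀ h ∈ H, Y h ⊆ nb R h ∧ m ≤ (Y h).card ∧ (Y h).card ≤ D)
    (Z : Finset V) (hZH : ∀ v ∈ Z, v ∉ H) (j N : ℕ) (hN : N * 2 ^ j ≤ Z.card) :
    ∃ K' ⊆ Z, K'.card = N ∧
      (∀ v, v ∉ H → ((nb R v ∩ K').card : ℝ) ≤ (1 / 2 ^ j + 2 * a) * dg R v) ∧
      ∀ h ∈ H, ((Y h ∩ K').card : ℝ) ≤ (1 / 2 ^ j + 2 * a) * (Y h).card := by
  classical
  set W : V → Finset V := fun v => if v ∈ H then Y v else nb R v with hWdef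
  have hWH : ∀ v, v ∈ H → W v = Y v := fun v hv => by simp [hWdef, hv]
  have hWn : ∀ v, v ∉ H → W v = nb R v := fun v hv => by simp [hWdef, hv]
  obtain ⟨K', hK', hK'c, hK'n⟩ := spread_family R hsymm m D a ha ha2 W (by
    intro v
    by_cases hv : v ∈ H
    · rw [hWH v hv]; exact (hY v hv).1
    · rw [hWn v hv]) (by
    intro v
    by_cases hv : v ∈ H
    · rw [hWH v hv]; exact (hY v hv).2.1
    · rw [hWn v hv]; exact hdeg v) (by
    intro v
    by_cases hv : v ∈ H
    · rw [hWH v hv]; exact (hY v hv).2.2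
    · rw [hWn v hv]; exact hD v hv) hP Z (fun v hv => hD v (hZH v hv)) j N hN
  refine ⟨K', hK', hK'c, fun v hv => ?_, fun h hh => ?_⟩
  · have h1 := hK'n v
    rw [hWn v hv] at h1
    exact h1
  · have h1 := hK'n h
    rw [hWH h hh] at h1
    exact h1

end Pool.Agent.helper83.Bis
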