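import Pool.Agent.helper83.Bis.StateI
import Pool.Agent.helper83.Bis.RoundI
import Pool.Agent.helper14.LE.CoreG
import Pool.Agent.helper15.Bis.Signs
import Pool.Agent.helper40.Bis.ChooseK

set_option autoImplicit false

/-!
# Exact bisections that are good at all low vertices, at a set `S` of hubs and at the giants
-/

namespace Pool.Agent.helper83.Bis

open Finset Pool.Agent.helper2.Bis

/-- the correction set and the private sets, and the rounding -/
theorem assemble {V : Type} [Fintype V] [DecidableEq V] (P R : V → V → Prop)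
    (hRP : ∀ u v, R u v → P u v)
    (hsymm : ∀ u v, R u v → R v u) (H : Finset V) (J : ℝ) (hJ : J = 1 ∨ J = -1)
    (m k D N0 : ℕ) (c : ℝ) (hc : 0 < c) (hc32 : c ≤ 1 / 32)
    (hm4 : 4 / c ^ 2 ≤ (m : ℝ)) (hDle : (D : ℝ) ≤ Real.exp (c ^ 2 / 8 * m)) (hmD : 2 * m ≤ D)
    (hD4 : 4 ≤ D) (h2k : 2 * k ≤ m) (hdeg : ∀ v, m ≤ dg R v) (hDlow : ∀ v, v ∉ H → dg R v ≤ D)
    (hHm : ∀ h ∈ H, ∀ v, R h v → v ∉ H)
    (S G : Finset V) (hSH : S ⊆ H) (hGH : G ⊆ H) (hSG : Disjoint S G)
    (s q : V → ℝ) (f W : ℕ) (hs : ∀ v, s v = 1 ∨ s v = -1 ∨ s v = 0) (hsH : ∀ h ∈ H, s h ≠ 0)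
    (hq1 : ∀ v, s v ≠ 0 → q v = s v / 2) (hq0 : ∀ v, s v = 0 → |q v| ≤ 1 / 2)
    (hx0 : ∀ v, v ∉ H → s v = 0 →
        |J * ∑ w ∈ nb R v, q w| ≤ (dg R v : ℝ) / 2 - k - c * dg R v)
    (hx1 : ∀ v, v ∉ H → s v ≠ 0 →
        -((dg R v : ℝ) / 2 - k - c * dg R v) ≤ s v * (J * ∑ w ∈ nb R v, q w))
    (hY : ∀ u ∈ S, ∃ Y ⊆ nb R u, Y.card = N0 ∧ ∀ w ∈ Y, 4 * c ≤ 1 + 2 * (J * s u * q w))
    (hsum : |∑ h ∈ H, s h| ≤ 1 + 2 * f)
    (hF : (univ.filter (fun v => v ∉ H ∧ q v ≠ 0)).card ≤ 2 * f)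
    (hfW : 32 * c ^ 2 * (f : ℝ) ≤ W)
    (T : Finset V) (hT : T = univ.filter (fun v => v ∉ H)) (hT8 : 8 ≤ T.card)
    (hW : (W : ℝ) ≤ 4 * Real.exp (-(8 * c ^ 2 * m)) * T.card)
    (hN0 : 2 * (m : ℝ) ≤ 4 * c * N0) (hN0D : N0 ≤ D) (hHN : 2 * (H.card * N0) ≤ T.card)
    (hgiant : ∀ v ∈ G, 2 * m * G.card + H.card + 6 * f + 2 ≤ dg P v) :
    ∃ e : V → ℝ, (∀ v, e v = 1 ∨ e v = -1) ∧ |∑ v, e v| ≤ 1 ∧
      (∀ v, (v ∉ H ∨ v ∈ S ∨ v ∈ G) →
        k ≤ ((nb P v).filter (fun w => J * e v * e w = 1)).card) := by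
  classical
  have hc2pos : 0 < c ^ 2 := by positivity
  have hcm : 4 ≤ c ^ 2 * m := by
    rw [div_le_iff₀ hc2pos] at hm4
    linarith
  have hc64 : c ^ 2 ≤ 1 / 1024 := by nlinarith
  have hm4096 : (4096 : ℝ) ≤ m := by
    have h1 : (4 : ℝ) * 1024 ≤ 4 / c ^ 2 := by
      rw [le_div_iff₀ hc2pos]
      nlinarith
    linarith
  have hE2 : 4 * (m : ℝ) ^ 2 ≤ Real.exp (c ^ 2 / 4 * m) := by
    have h1 : Real.exp (c ^ 2 / 4 * m) = Real.exp (c ^ 2 / 8 * m) ^ 2 := by
      rw [← Real.exp_nat_mul]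
      congr 1
      push_cast
      ring
    have h2 : 2 * (m : ℝ) ≤ Real.exp (c ^ 2 / 8 * m) := by
      have : 2 * (m : ℝ) ≤ D := by exact_mod_cast hmD
      linarith
    rw [h1]
    calc 4 * (m : ℝ) ^ 2 = (2 * (m : ℝ)) ^ 2 := by ring
      _ ≤ _ := pow_le_pow_left₀ (by linarith) h2 2
  set F : Finset V := univ.filter (fun v => v ∉ H ∧ q v ≠ 0) with hFdef
  set F0 : Finset V := univ.filter (fun v => v ∉ H ∧ s v ≠ 0) with hF0
  set F1 : Finset V := univ.filter (fun v => v ∉ H ∧ s v = 0 ∧ q v ≠ 0) with hF1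
  set Z : Finset V := univ.filter (fun v => v ∉ H ∧ s v = 0 ∧ q v = 0) with hZ
  have eF0 : Set.ncard {v : V | v ∉ H ∧ s v ≠ 0} = F0.card := by
    rw [← Set.ncard_coe_finset]
    congr 1
    ext v
    simp [hF0]
  have eF1 : Set.ncard {v : V | v ∉ H ∧ s v = 0 ∧ q v ≠ 0} = F1.card := by
    rw [← Set.ncard_coe_finset]
    congr 1
    ext v
    simp [hF1]
  have hsq : ∀ v, s v ≠ 0 → q v ≠ 0 := by
    intro v hv
    rw [hq1 v hv]
    exact div_ne_zero hv two_ne_zero
  have hF01 : F0.card + F1.card = F.card := by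
    rw [← Finset.card_union_of_disjoint]
    · congr 1
      ext v
      simp only [hFdef, hF0, hF1, mem_union, mem_filter, mem_univ, true_and]
      constructor
      · rintro (⟨h1, h2⟩ | ⟨h1, _, h3⟩)
        · exact ⟨h1, hsq v h2⟩
        · exact ⟨h1, h3⟩
      · rintro ⟨h1, h2⟩
        by_cases h3 : s v = 0
        · exact Or.inr ⟨h1, h3, h2⟩
        · exact Or.inl ⟨h1, h3⟩
    · rw [Finset.disjoint_left]
      intro v hv hv'
      simp only [hF0, hF1, mem_filter, mem_univ, true_and] at hv hv'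
      exact hv.2 hv'.2.1
  have hTZ : T.card ≤ Z.card + F.card := by
    have hsub : T ⊆ Z ∪ F := by
      intro v hv
      rw [hT] at hv
      have hvH : v ∉ H := (mem_filter.mp hv).2
      simp only [hZ, hFdef, mem_union, mem_filter, mem_univ, true_and]
      by_cases h : q v = 0
      · left
        refine ⟨hvH, ?_, h⟩
        by_contra h'
        exact hsq v h' h
      · right
        exact ⟨hvH, h⟩
    exact (Finset.card_le_card hsub).trans (Finset.card_union_le _ _)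
  -- the sets of the middle hubs
  have hY' : ∀ u : V, ∃ Y : Finset V, u ∈ S → (Y ⊆ nb R u ∧ Y.card = N0 ∧
      ∀ w ∈ Y, 4 * c ≤ 1 + 2 * (J * s u * q w)) := by
    intro u
    by_cases hu : u ∈ S
    · obtain ⟨Y, h1, h2⟩ := hY u hu
      exact ⟨Y, fun _ => ⟨h1, h2⟩⟩
    · exact ⟨∅, fun h => absurd h hu⟩
  choose Yh hYh using hY'
  set UY : Finset V := S.biUnion Yh with hUY
  have hUYc : UY.card ≤ H.card * N0 := by
    refine (Finset.card_biUnion_le_card_mul _ _ N0 (fun u hu => (hYh u hu).2.1.le)).trans ?_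
    exact Nat.mul_le_mul_right _ (Finset.card_le_card hSH)
  -- size of the correction set
  obtain ⟨N, hN1, hN2, hNpar⟩ : ∃ N : ℕ, F.card + 2 * f + 1 ≤ N ∧ N ≤ F.card + 2 * f + 2 ∧
      (N ≤ Z.card → Even (Z.card - N)) := by
    rcases Nat.even_or_odd (Z.card - (F.card + 2 * f + 1)) with h | h
    · exact ⟨F.card + 2 * f + 1, le_refl _, by omega, fun _ => h⟩
    · refine ⟨F.card + 2 * f + 2, by omega, le_refl _, fun hle => ?_⟩
      obtain ⟨r, hr⟩ := h
      exact ⟨r, by omega⟩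
  have hN4 : N ≤ 4 * f + 2 := by omega
  have hdisj : Disjoint H Z := by
    rw [Finset.disjoint_left]
    intro v hv hvZ
    exact (mem_filter.mp hvZ).2.1 hv
  have hZU : Z.card ≤ (Z \ UY).card + UY.card := by
    have := Finset.le_card_sdiff UY Z
    omega
  have hexp4 : Real.exp (-(8 * c ^ 2 * m)) * Real.exp (c ^ 2 / 4 * m) ≤ c ^ 2 / 48 := by
    rw [← Real.exp_add]
    have h1 : -(8 * c ^ 2 * m) + c ^ 2 / 4 * m = -(31 / 4 * (c ^ 2 * m)) := by ring
    rw [h1, Real.exp_neg, inv_le_iff_one_le_mul₀ (by positivity)]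
    have h2 : Real.exp (c ^ 2 / 4 * m) ≤ Real.exp (31 / 4 * (c ^ 2 * m)) := by
      apply Real.exp_le_exp.2
      nlinarith
    have h3 : 4 * (m : ℝ) ^ 2 ≤ Real.exp (31 / 4 * (c ^ 2 * m)) := hE2.trans h2
    have h4 : (1 : ℝ) ≤ c ^ 2 / 48 * (4 * (m : ℝ) ^ 2) := by
      have h5 : (4 : ℝ) * m ≤ (c ^ 2 * m) * m := mul_le_mul_of_nonneg_right hcm (by linarith)
      nlinarith
    exact h4.trans (mul_le_mul_of_nonneg_left h3 (by positivity))
  obtain ⟨K, hKZ, hKc, hK2⟩ : ∃ K : Finset V, K ⊆ Z \ UY ∧ K.card = N ∧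
      ∀ v, v ∉ H → (nb R v ∩ K).card ≤ 2 := by
    by_cases hW0 : W = 0
    · have hf0 : f = 0 := by
        rw [hW0, Nat.cast_zero] at hfW
        have h1 : (f : ℝ) ≤ 0 := by
          by_contra h
          rw [not_le] at h
          have : 0 < 32 * c ^ 2 * (f : ℝ) := by positivity
          linarith
        exact_mod_cast le_antisymm h1 (Nat.cast_nonneg _)
      have hNZ : N ≤ (Z \ UY).card := by omega
      obtain ⟨K, hKZ, hKc⟩ := Finset.exists_subset_card_eq hNZ
      refine ⟨K, hKZ, hKc, fun v _ => ?_⟩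
      refine (Finset.card_le_card Finset.inter_subset_right).trans ?_
      omega
    · have hW1 : (1 : ℝ) ≤ W := by exact_mod_cast Nat.one_le_iff_ne_zero.mpr hW0
      have hNR : (N : ℝ) * c ^ 2 ≤ W := by
        have h1 : (N : ℝ) ≤ 4 * f + 2 := by exact_mod_cast hN4
        have h2 : (N : ℝ) * c ^ 2 ≤ (4 * f + 2) * c ^ 2 :=
          mul_le_mul_of_nonneg_right h1 (by positivity)
        nlinarith
      have hexp1 : 1 ≤ Real.exp (c ^ 2 / 4 * m) := Real.one_le_exp (by positivity)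
      have hD2 : (D : ℝ) ^ 2 ≤ Real.exp (c ^ 2 / 4 * m) := by
        have h1 : Real.exp (c ^ 2 / 4 * m) = Real.exp (c ^ 2 / 8 * m) ^ 2 := by
          rw [← Real.exp_nat_mul]
          congr 1
          push_cast
          ring
        rw [h1]
        exact pow_le_pow_left₀ (Nat.cast_nonneg _) hDle 2
      have hDR : 2 * ((D : ℝ) ^ 2 + 3) ≤ 8 * Real.exp (c ^ 2 / 4 * m) := by linarith
      have hND : 2 * ((N : ℝ) * ((D : ℝ) ^ 2 + 3)) ≤ T.card := by
        have hT0 : (0 : ℝ) ≤ T.card := Nat.cast_nonneg _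
        have h1 : (N : ℝ) * c ^ 2 * (2 * ((D : ℝ) ^ 2 + 3)) ≤ T.card * c ^ 2 := by
          calc (N : ℝ) * c ^ 2 * (2 * ((D : ℝ) ^ 2 + 3))
              ≤ W * (8 * Real.exp (c ^ 2 / 4 * m)) :=
                mul_le_mul hNR hDR (by positivity) (by positivity)
            _ ≤ (4 * Real.exp (-(8 * c ^ 2 * m)) * T.card) * (8 * Real.exp (c ^ 2 / 4 * m)) :=
                mul_le_mul_of_nonneg_right hW (by positivity)
            _ = 32 * (Real.exp (-(8 * c ^ 2 * m)) * Real.exp (c ^ 2 / 4 * m)) * T.card := by ring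
            _ ≤ 32 * (c ^ 2 / 48) * T.card := by
                apply mul_le_mul_of_nonneg_right _ hT0
                exact mul_le_mul_of_nonneg_left hexp4 (by norm_num)
            _ ≤ T.card * c ^ 2 := by nlinarith
        have h2 : 2 * ((N : ℝ) * ((D : ℝ) ^ 2 + 3)) * c ^ 2 ≤ T.card * c ^ 2 := by
          calc 2 * ((N : ℝ) * ((D : ℝ) ^ 2 + 3)) * c ^ 2 =
              (N : ℝ) * c ^ 2 * (2 * ((D : ℝ) ^ 2 + 3)) := by ring
            _ ≤ _ := h1
        exact le_of_mul_le_mul_right h2 hc2pos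
      have hND' : 2 * (N * (D ^ 2 + 3)) ≤ T.card := by exact_mod_cast hND
      have h5 : N * (D ^ 2 + 3) = N * (D ^ 2 + 1) + 2 * N := by ring
      have h6 : F.card ≤ N := by omega
      have hNZ : N * (D ^ 2 + 1) ≤ (Z \ UY).card := by omega
      obtain ⟨K, hKZ, hKc, hK⟩ := Pool.Agent.helper40.Bis.greedy R hsymm H Z (Z \ UY) hdisj
        Finset.sdiff_subset D hDlow N hNZ N le_rfl
      refine ⟨K, hKZ, hKc, fun v hv => ?_⟩
      have : (nb R v ∩ K).card ≤ 1 := by
        rw [Finset.card_le_one]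
        intro a ha b hb
        rw [mem_inter, mem_nb] at ha hb
        exact hK v hv a ha.2 b hb.2 ha.1 hb.1
      omega
  have hKZ' : K ⊆ Z := hKZ.trans Finset.sdiff_subset
  have hNZ : N ≤ Z.card := by
    rw [← hKc]
    exact Finset.card_le_card hKZ'
  -- the giants
  have hserve : ∀ v ∈ G, 2 * m * G.card ≤ ((nb P v ∩ Z) \ K).card := by
    intro v hv
    have h1 : dg P v ≤ ((nb P v ∩ Z) \ K).card + H.card + F.card + N := by
      have hsub : nb P v ⊆ (((nb P v ∩ Z) \ K) ∪ H) ∪ (F ∪ K) := by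
        intro w hw
        by_cases hwH : w ∈ H
        · exact Finset.mem_union_left _ (Finset.mem_union_right _ hwH)
        by_cases hwF : w ∈ F
        · exact Finset.mem_union_right _ (Finset.mem_union_left _ hwF)
        by_cases hwK : w ∈ K
        · exact Finset.mem_union_right _ (Finset.mem_union_right _ hwK)
        have hwZ : w ∈ Z := by
          simp only [hFdef, mem_filter, mem_univ, true_and, not_and, not_not] at hwF
          have hq : q w = 0 := hwF hwH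
          simp only [hZ, mem_filter, mem_univ, true_and]
          refine ⟨hwH, ?_, hq⟩
          by_contra h'
          exact hsq w h' hq
        exact Finset.mem_union_left _ (Finset.mem_union_left _
          (Finset.mem_sdiff.2 ⟨Finset.mem_inter.2 ⟨hw, hwZ⟩, hwK⟩))
      have h2 := Finset.card_le_card hsub
      have h3 := Finset.card_union_le (((nb P v ∩ Z) \ K) ∪ H) (F ∪ K)
      have h4 := Finset.card_union_le ((nb P v ∩ Z) \ K) H
      have h5 := Finset.card_union_le F K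
      unfold dg
      omega
    have h2 := hgiant v hv
    omega
  obtain ⟨Y, hY1, hY2⟩ := Pool.Agent.helper14.LE.exists_family (fun v => (nb P v ∩ Z) \ K)
    (2 * m) G.card G le_rfl hserve
  obtain ⟨e, he1, he2, he3, he4, he5⟩ := rounding_i R hsymm H J hJ m k D c hc (by linarith) hm4
    hdeg hDlow s q hs hsH hq1 hq0 hx0 hx1 K
    (fun v hv => (mem_filter.mp (hKZ' hv)).2) hK2
    (by
      have e : Set.ncard {v : V | v ∉ H ∧ s v = 0 ∧ q v = 0 ∧ v ∉ K} = Z.card - N := by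
        have : {v : V | v ∉ H ∧ s v = 0 ∧ q v = 0 ∧ v ∉ K} = ((Z \ K : Finset V) : Set V) := by
          ext v
          simp [hZ]
          tauto
        rw [this, Set.ncard_coe_finset, Finset.card_sdiff_of_subset hKZ', hKc]
      rw [e]
      exact hNpar hNZ)
    (by
      rw [eF0, eF1, hKc]
      have h2 : (F0.card : ℝ) + F1.card = F.card := by exact_mod_cast hF01
      have h3 : (F.card : ℝ) + 2 * f + 1 ≤ N := by exact_mod_cast hN1
      linarith)
    G hGH Y hmD h2k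
    (by
      intro h hh
      refine ⟨(hY1 h hh).2, fun w hw => ?_⟩
      have h1 := Finset.mem_sdiff.1 ((hY1 h hh).1 hw)
      have h2 := (Finset.mem_filter.1 (Finset.mem_inter.1 h1.1).2).2
      exact ⟨h2.1, h2.2.1, h2.2.2, h1.2⟩)
    hY2 S hSH hSG Yh N0 (4 * c) (by linarith) (by linarith) (by linarith) hN0 hN0D
    (by
      intro h hh
      refine ⟨(hYh h hh).1, (hYh h hh).2.1, fun w hw => ⟨?_, ?_, (hYh h hh).2.2 w hw⟩⟩
      · exact hHm h (hSH hh) w (mem_nb.1 ((hYh h hh).1 hw))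
      · intro hwK
        exact (Finset.mem_sdiff.1 (hKZ hwK)).2 (Finset.mem_biUnion.2 ⟨h, hh, hw⟩))
    (2 * Real.exp (-(c ^ 2 * m / 2))) (le_refl _)
    (by
      have hexp1 : 1 ≤ Real.exp (c ^ 2 / 4 * m) := Real.one_le_exp (by positivity)
      have hD2 : (D : ℝ) ^ 2 ≤ Real.exp (c ^ 2 / 4 * m) := by
        have h1 : Real.exp (c ^ 2 / 4 * m) = Real.exp (c ^ 2 / 8 * m) ^ 2 := by
          rw [← Real.exp_nat_mul]
          congr 1
          push_cast
          ring
        rw [h1]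
        exact pow_le_pow_left₀ (Nat.cast_nonneg _) hDle 2
      have hD1 : (1 : ℝ) ≤ D := by
        have : 1 ≤ D := by omega
        exact_mod_cast this
      have hDR : 2 * (D : ℝ) * (D + 1) + 1 ≤ 5 * Real.exp (c ^ 2 / 4 * m) := by
        have h1 : (D : ℝ) ≤ (D : ℝ) ^ 2 := by nlinarith
        have h2 : (1 : ℝ) ≤ (D : ℝ) ^ 2 := by nlinarith
        nlinarith
      have hEE : Real.exp (-(c ^ 2 * m / 2)) * Real.exp (c ^ 2 / 4 * m) ≤ 1 / 40 := by
        rw [← Real.exp_add]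
        have h1 : -(c ^ 2 * m / 2) + c ^ 2 / 4 * m = -(c ^ 2 * m / 4) := by ring
        rw [h1, Real.exp_neg, inv_le_iff_one_le_mul₀ (by positivity)]
        have h2 : Real.exp (c ^ 2 * m / 4) = Real.exp (c ^ 2 / 4 * m) := by
          congr 1
          ring
        rw [h2]
        have h3 : (40 : ℝ) ≤ 4 * (m : ℝ) ^ 2 := by nlinarith
        have h4 : (40 : ℝ) ≤ Real.exp (c ^ 2 / 4 * m) := h3.trans hE2
        linarith
      calc 4 * (2 * Real.exp (-(c ^ 2 * m / 2))) * (2 * (D : ℝ) * (D + 1) + 1)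
          ≤ 4 * (2 * Real.exp (-(c ^ 2 * m / 2))) * (5 * Real.exp (c ^ 2 / 4 * m)) :=
            mul_le_mul_of_nonneg_left hDR (by positivity)
        _ = 40 * (Real.exp (-(c ^ 2 * m / 2)) * Real.exp (c ^ 2 / 4 * m)) := by ring
        _ ≤ 40 * (1 / 40) := mul_le_mul_of_nonneg_left hEE (by norm_num)
        _ ≤ 1 := by norm_num)
  refine ⟨e, he1, he2, ?_⟩
  intro v hv
  by_cases hvH : v ∈ H
  · by_cases hvG : v ∈ G
    · refine (he4 v hvG).trans (Finset.card_le_card ?_)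
      apply Finset.filter_subset_filter
      intro w hw
      exact (Finset.mem_inter.1 (Finset.mem_sdiff.1 ((hY1 v hvG).1 hw)).1).1
    · have hvS : v ∈ S := by
        rcases hv with hv | hv | hv
        · exact absurd hvH hv
        · exact hv
        · exact absurd hv hvG
      refine (he5 v hvS).trans (Finset.card_le_card ?_)
      apply Finset.filter_subset_filter
      intro w hw
      rw [mem_nb]
      exact hRP v w (mem_nb.1 ((hYh v hvS).1 hw))
  · refine (he3 v hvH).trans (Finset.card_le_card ?_)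
    apply Finset.filter_subset_filter
    intro w hw
    rw [mem_nb] at hw ⊢
    exact hRP v w hw

end Pool.Agent.helper83.Bis
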