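import Pool.Agent.helper2.Bis.Defs

set_option autoImplicit false

/-!
# Flipping unhappy hubs and repairing the low vertices: the cascade lemma

A state `x` of a graph with relation `R`, good at the vertices of a set `Q`, is changed on `Q` and on
a set `S` of hubs such that all hubs of `S` see many neighbours that are not against them and the
vertices of `Q` stay good for a larger threshold; the number of changes is bounded.
-/

namespace Pool.Agent.helper83.Bis

open Finset Pool.Agent.helper2.Bis

/-- a set of vertices that is not the disjoint union of two nonempty sets without edges between -/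
def RConn {V : Type} [DecidableEq V] (R : V → V → Prop) (Y : Finset V) : Prop :=
  ∀ A ⊆ Y, A.Nonempty → (Y \ A).Nonempty → ∃ a ∈ A, ∃ b ∈ Y \ A, R a b

/-- the energy of a state -/
noncomputable def en {V : Type} [Fintype V] (R : V → V → Prop) (J : ℝ) (y : V → ℝ) : ℝ :=
  J * ∑ v, y v * ∑ w ∈ nb R v, y w

theorem en_symm {V : Type} [Fintype V] (R : V → V → Prop) (hsymm : ∀ u v, R u v → R v u)
    (a b : V → ℝ) : ∑ v, a v * ∑ w ∈ nb R v, b w = ∑ v, b v * ∑ w ∈ nb R v, a w := by
  classical
  have h : ∀ c d : V → ℝ, ∑ v, c v * ∑ w ∈ nb R v, d w =
      ∑ v, ∑ w, if R v w then c v * d w else 0 := by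
    intro c d
    refine Finset.sum_congr rfl fun v _ => ?_
    unfold nb
    rw [Finset.mul_sum, Finset.sum_filter]
  rw [h, h, Finset.sum_comm]
  refine Finset.sum_congr rfl fun v _ => Finset.sum_congr rfl fun w _ => ?_
  by_cases h1 : R v w
  · rw [if_pos h1, if_pos (hsymm _ _ h1), mul_comm]
  · have h2 : ¬ R w v := fun h2 => h1 (hsymm _ _ h2)
    rw [if_neg h1, if_neg h2]

theorem en_update {V : Type} [Fintype V] [DecidableEq V] (R : V → V → Prop)
    (hsymm : ∀ u v, R u v → R v u) (hirr : ∀ v, ¬ R v v) (J : ℝ) (y : V → ℝ) (v : V) (a : ℝ) :
    en R J (Function.update y v a) - en R J y = 2 * (a - y v) * (J * ∑ w ∈ nb R v, y w) := by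
  classical
  set d : V → ℝ := fun w => if w = v then a - y v else 0 with hd
  have e1 : Function.update y v a = fun w => y w + d w := by
    funext w
    by_cases h : w = v
    · rw [h, Function.update_self]
      simp only [hd, if_true]
      ring
    · rw [Function.update_of_ne h]
      simp only [hd, if_neg h, add_zero]
  have e2 : ∀ f : V → ℝ, ∑ w, d w * f w = (a - y v) * f v := by
    intro f
    simp only [hd, ite_mul, zero_mul]
    rw [Finset.sum_ite_eq' univ v (fun w => (a - y v) * f w)]
    simp
  have e3 : ∑ w ∈ nb R v, d w = 0 := by
    apply Finset.sum_eq_zero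
    intro w hw
    have : w ≠ v := by
      rintro rfl
      exact hirr _ (mem_nb.1 hw)
    simp only [hd, if_neg this]
  have e4 : ∑ u, (y u + d u) * ∑ w ∈ nb R u, (y w + d w) =
      ∑ u, y u * ∑ w ∈ nb R u, y w + ∑ u, y u * ∑ w ∈ nb R u, d w +
        (∑ u, d u * ∑ w ∈ nb R u, y w + ∑ u, d u * ∑ w ∈ nb R u, d w) := by
    rw [← Finset.sum_add_distrib, ← Finset.sum_add_distrib, ← Finset.sum_add_distrib]
    refine Finset.sum_congr rfl fun u _ => ?_
    rw [Finset.sum_add_distrib]
    ring
  unfold en
  rw [e1]
  simp only []
  rw [e4, en_symm R hsymm y d, e2, e2, e3]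
  ring

/-- the invariants of the cascade -/
structure Inv {V : Type} [Fintype V] [DecidableEq V] (R : V → V → Prop) (J : ℝ) (S Q : Finset V)
    (x : V → ℝ) (N0 : ℕ) (s : ℝ) (y : V → ℝ) (Ch Fl : Finset V) (I : V → Finset V)
    (r : V → ℕ) : Prop where
  chQ : Ch ⊆ Q
  flS : Fl ⊆ S
  off : ∀ v, v ∉ Ch → v ∉ Fl → y v = x v
  ch : ∀ v ∈ Ch, y v = 1 ∨ y v = -1
  fl : ∀ u ∈ Fl, y u = x u ∨ y u = -x u
  icard : ∀ u ∈ Fl, (I u).card ≤ N0
  imaj : ∀ u ∈ Fl, ∀ v ∈ nb R u, v ∈ I u ∨ v ∈ Ch ∨ x v = -(J * x u)
  cnt : ∀ v ∈ Ch, s ≤ (((nb R v ∩ Ch).filter (fun w => r w < r v)).card : ℝ) +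
    (((nb R v ∩ Fl).filter (fun u => v ∈ I u)).card : ℝ)

theorem cascade_run {V : Type} [Fintype V] [DecidableEq V] (R : V → V → Prop)
    (hsymm : ∀ u v, R u v → R v u) (hirr : ∀ v, ¬ R v v) (J : ℝ) (hJ : J = 1 ∨ J = -1)
    (S Q : Finset V) (hSQ : Disjoint S Q) (hSS : ∀ u ∈ S, ∀ v, R u v → v ∉ S)
    (x : V → ℝ) (hx1 : ∀ v, |x v| ≤ 1) (hxS : ∀ u ∈ S, x u = 1 ∨ x u = -1)
    (t0 t1 : V → ℝ) (s : ℝ) (ht1 : ∀ v ∈ Q, 0 ≤ t1 v) (hts : ∀ v ∈ Q, t0 v + 2 * s ≤ t1 v)
    (hg1 : ∀ v ∈ Q, t0 v < J * ∑ w ∈ nb R v, x w → x v = 1)
    (hg2 : ∀ v ∈ Q, J * ∑ w ∈ nb R v, x w < -t0 v → x v = -1)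
    (N0 : ℕ) (hD : ∀ u ∈ S, 2 * N0 ≤ dg R u) :
    ∃ (y : V → ℝ) (Ch Fl : Finset V) (I : V → Finset V) (r : V → ℕ),
      Inv R J S Q x N0 s y Ch Fl I r ∧ (∀ v, |y v| ≤ 1) ∧
      (∀ v ∈ Q, t1 v < J * ∑ w ∈ nb R v, y w → y v = 1) ∧
      (∀ v ∈ Q, J * ∑ w ∈ nb R v, y w < -t1 v → y v = -1) ∧
      (∀ u ∈ S, N0 ≤ ((nb R u).filter (fun v => y v ≠ -(J * y u))).card) := by
  classical
  -- the domain
  set Dom : V → Finset ℝ := fun v => {x v, -x v, 1, -1} with hDom
  set ok : (V → ℝ) → Prop := fun y => ∃ (Ch Fl : Finset V) (I : V → Finset V) (r : V → ℕ),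
    Inv R J S Q x N0 s y Ch Fl I r with hok
  set C : Finset (V → ℝ) := (Fintype.piFinset Dom).filter ok with hC
  have hmem : ∀ y, ok y → y ∈ C := by
    intro y hy
    rw [hC, Finset.mem_filter, Fintype.mem_piFinset]
    refine ⟨fun v => ?_, hy⟩
    obtain ⟨Ch, Fl, I, r, h⟩ := hy
    simp only [hDom, Finset.mem_insert, Finset.mem_singleton]
    by_cases h1 : v ∈ Ch
    · rcases h.ch v h1 with h2 | h2
      · exact Or.inr (Or.inr (Or.inl h2))
      · exact Or.inr (Or.inr (Or.inr h2))
    · by_cases h3 : v ∈ Fl
      · rcases h.fl v h3 with h2 | h2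
        · exact Or.inl h2
        · exact Or.inr (Or.inl h2)
      · exact Or.inl (h.off v h1 h3)
  have hokx : ok x := by
    refine ⟨∅, ∅, fun _ => ∅, fun _ => 0, ?_⟩
    constructor
    · simp
    · simp
    · simp
    · simp
    · simp
    · simp
    · simp
    · simp
  obtain ⟨y, hyC, hmax⟩ := Finset.exists_max_image C (en R J) ⟨x, hmem x hokx⟩
  have hyok : ok y := (Finset.mem_filter.1 hyC).2
  obtain ⟨Ch, Fl, I, r, h⟩ := hyok
  have hSnQ : ∀ v, v ∈ S → v ∉ Q := fun v h1 h2 => Finset.disjoint_left.1 hSQ h1 h2
  have hChS : ∀ v, v ∈ Ch → v ∉ S := fun v h1 h2 => hSnQ v h2 (h.chQ h1)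
  have hy1 : ∀ v, |y v| ≤ 1 := by
    intro v
    by_cases h1 : v ∈ Ch
    · rcases h.ch v h1 with h2 | h2 <;> rw [h2] <;> norm_num
    · by_cases h3 : v ∈ Fl
      · rcases h.fl v h3 with h2 | h2
        · rw [h2]; exact hx1 v
        · rw [h2, abs_neg]; exact hx1 v
      · rw [h.off v h1 h3]; exact hx1 v
  -- the low vertices
  have key : ∀ ε : ℝ, (ε = 1 ∨ ε = -1) →
      (∀ v ∈ Q, t0 v < ε * (J * ∑ w ∈ nb R v, x w) → x v = ε) →
      ∀ v ∈ Q, t1 v < ε * (J * ∑ w ∈ nb R v, y w) → y v = ε := by
    intro ε hε hgx v hv hF
    by_contra hne
    have hvS : v ∉ S := fun h1 => hSnQ v h1 hv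
    have hvFl : v ∉ Fl := fun h1 => hvS (h.flS h1)
    have hεy : ε * y v < 1 := by
      have h1 := abs_le.1 (hy1 v)
      rcases hε with rfl | rfl
      · rcases lt_or_eq_of_le h1.2 with h2 | h2
        · linarith
        · exact absurd h2 hne
      · rcases lt_or_eq_of_le h1.1 with h2 | h2
        · linarith
        · exact absurd h2.symm hne
    have hε2 : ε * ε = 1 := by rcases hε with rfl | rfl <;> norm_num
    have hinc : en R J y < en R J (Function.update y v ε) := by
      have h1 := en_update R hsymm hirr J y v ε
      have h2 : 2 * (ε - y v) * (J * ∑ w ∈ nb R v, y w) =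
          2 * (1 - ε * y v) * (ε * (J * ∑ w ∈ nb R v, y w)) := by
        calc 2 * (ε - y v) * (J * ∑ w ∈ nb R v, y w) =
            2 * (ε * 1 - (ε * ε) * y v) * (J * ∑ w ∈ nb R v, y w) := by rw [hε2]; ring
          _ = _ := by ring
      have h3 : 0 < 2 * (1 - ε * y v) * (ε * (J * ∑ w ∈ nb R v, y w)) := by
        apply mul_pos
        · linarith
        · exact lt_of_le_of_lt (ht1 v hv) hF
      linarith
    have hok' : ok (Function.update y v ε) := by
      by_cases hvCh : v ∈ Ch
      · refine ⟨Ch, Fl, I, r, h.chQ, h.flS, ?_, ?_, ?_, h.icard, h.imaj, h.cnt⟩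
        · intro w hw1 hw2
          have : w ≠ v := fun h1 => hw1 (h1 ▸ hvCh)
          rw [Function.update_of_ne this]
          exact h.off w hw1 hw2
        · intro w hw
          by_cases h1 : w = v
          · rw [h1, Function.update_self]
            exact hε
          · rw [Function.update_of_ne h1]
            exact h.ch w hw
        · intro u hu
          have : u ≠ v := fun h1 => hvFl (h1 ▸ hu)
          rw [Function.update_of_ne this]
          exact h.fl u hu
      · -- the first move of `v`
        have hyx : y v = x v := h.off v hvCh hvFl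
        have hF0 : ε * (J * ∑ w ∈ nb R v, x w) ≤ t0 v := by
          by_contra h1
          rw [not_le] at h1
          apply hne
          rw [hyx]
          exact hgx v hv h1
        set r' : V → ℕ := Function.update r v (Ch.sup r + 1) with hr'
        have hr'v : r' v = Ch.sup r + 1 := by rw [hr', Function.update_self]
        have hr'w : ∀ w ∈ Ch, r' w = r w := by
          intro w hw
          have : w ≠ v := fun h1 => hvCh (h1 ▸ hw)
          rw [hr', Function.update_of_ne this]
        have hlt : ∀ w ∈ Ch, r' w < r' v := by
          intro w hw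
          rw [hr'w w hw, hr'v]
          exact Nat.lt_succ_of_le (Finset.le_sup hw)
        refine ⟨insert v Ch, Fl, I, r', ?_, h.flS, ?_, ?_, ?_, h.icard, ?_, ?_⟩
        · intro w hw
          rcases Finset.mem_insert.1 hw with rfl | hw
          · exact hv
          · exact h.chQ hw
        · intro w hw1 hw2
          rw [Finset.mem_insert, not_or] at hw1
          rw [Function.update_of_ne hw1.1]
          exact h.off w hw1.2 hw2
        · intro w hw
          by_cases h1 : w = v
          · rw [h1, Function.update_self]
            exact hε
          · rw [Function.update_of_ne h1]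
            exact h.ch w ((Finset.mem_insert.1 hw).resolve_left h1)
        · intro u hu
          have : u ≠ v := fun h1 => hvFl (h1 ▸ hu)
          rw [Function.update_of_ne this]
          exact h.fl u hu
        · intro u hu w hw
          rcases h.imaj u hu w hw with h1 | h1 | h1
          · exact Or.inl h1
          · exact Or.inr (Or.inl (Finset.mem_insert_of_mem h1))
          · exact Or.inr (Or.inr h1)
        · intro w hw
          rcases Finset.mem_insert.1 hw with rfl | hw
          · -- the count for `v`
            have e1 : ε * (J * ∑ u ∈ nb R w, y u) - ε * (J * ∑ u ∈ nb R w, x u) ≤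
                ∑ u ∈ nb R w, ((if u ∈ Ch then (2 : ℝ) else 0) +
                  (if u ∈ Fl ∧ w ∈ I u then (2 : ℝ) else 0)) := by
              have e2 : ε * (J * ∑ u ∈ nb R w, y u) - ε * (J * ∑ u ∈ nb R w, x u) =
                  ∑ u ∈ nb R w, ε * J * (y u - x u) := by
                rw [← Finset.mul_sum, Finset.sum_sub_distrib]
                ring
              rw [e2]
              refine Finset.sum_le_sum fun u hu => ?_
              have hεJ : |ε * J| = 1 := by
                rcases hε with rfl | rfl <;> rcases hJ with rfl | rfl <;> norm_num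
              have hb2 : ε * J * (y u - x u) ≤ 2 := by
                refine (le_abs_self _).trans ?_
                rw [abs_mul, hεJ, one_mul]
                have h1 := abs_le.1 (hy1 u)
                have h2 := abs_le.1 (hx1 u)
                rw [abs_le]
                constructor <;> linarith [h1.1, h1.2, h2.1, h2.2]
              by_cases h1 : u ∈ Ch
              · rw [if_pos h1]
                have : (0 : ℝ) ≤ if u ∈ Fl ∧ w ∈ I u then (2 : ℝ) else 0 := by
                  split_ifs <;> norm_num
                linarith
              · rw [if_neg h1, zero_add]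
                by_cases h2 : u ∈ Fl
                · by_cases h3 : w ∈ I u
                  · rw [if_pos ⟨h2, h3⟩]
                    exact hb2
                  · rw [if_neg (fun h4 => h3 h4.2)]
                    have h4 : w ∈ nb R u := mem_nb.2 (hsymm _ _ (mem_nb.1 hu))
                    rcases h.imaj u h2 w h4 with h5 | h5 | h5
                    · exact absurd h5 h3
                    · exact absurd h5 hvCh
                    · rcases h.fl u h2 with h6 | h6
                      · rw [h6]; simp
                      · rw [h6]
                        have h7 : x w = 1 ∨ x w = -1 := by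
                          rw [h5]
                          rcases hJ with rfl | rfl <;> rcases hxS u (h.flS h2) with h8 | h8 <;>
                            rw [h8] <;> norm_num
                        have h8 : x w ≠ ε := fun h9 => hne (hyx.trans h9)
                        have h9 : x w = -ε := by
                          rcases hε with rfl | rfl
                          · exact h7.resolve_left h8
                          · rw [neg_neg]
                            exact h7.resolve_right h8
                        have h10 : ε * J * (-x u - x u) = 2 * (ε * x w) := by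
                          rw [h5]; ring
                        rw [h10, h9]
                        have : ε * -ε = -1 := by rw [mul_neg, hε2]
                        rw [this]
                        norm_num
                · rw [if_neg (fun h4 => h2 h4.1), h.off u h1 h2]
                  simp
            rw [Finset.sum_add_distrib] at e1
            have e3 : ∑ u ∈ nb R w, (if u ∈ Ch then (2 : ℝ) else 0) =
                2 * ((nb R w ∩ Ch).card : ℝ) := by
              rw [Finset.sum_ite_mem, Finset.sum_const, nsmul_eq_mul]
              ring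
            have e4 : ∑ u ∈ nb R w, (if u ∈ Fl ∧ w ∈ I u then (2 : ℝ) else 0) =
                2 * (((nb R w ∩ Fl).filter (fun u => w ∈ I u)).card : ℝ) := by
              rw [← Finset.sum_filter, Finset.sum_const, nsmul_eq_mul, mul_comm]
              congr 2
              congr 1
              ext u
              simp only [Finset.mem_filter, Finset.mem_inter]
              tauto
            rw [e3, e4] at e1
            have e5 : (nb R w ∩ insert w Ch).filter (fun u => r' u < r' w) = nb R w ∩ Ch := by
              ext u
              simp only [Finset.mem_filter, Finset.mem_inter, Finset.mem_insert]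
              constructor
              · rintro ⟨⟨h1, h2⟩, h3⟩
                rcases h2 with rfl | h2
                · exact absurd h3 (lt_irrefl _)
                · exact ⟨h1, h2⟩
              · rintro ⟨h1, h2⟩
                exact ⟨⟨h1, Or.inr h2⟩, hlt u h2⟩
            rw [e5]
            have e6 := hts w hv
            linarith
          · refine (h.cnt w hw).trans ?_
            have e1 : ((nb R w ∩ Ch).filter (fun u => r u < r w)).card ≤
                ((nb R w ∩ insert v Ch).filter (fun u => r' u < r' w)).card := by
              apply Finset.card_le_card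
              intro u hu
              simp only [Finset.mem_filter, Finset.mem_inter, Finset.mem_insert] at hu ⊢
              refine ⟨⟨hu.1.1, Or.inr hu.1.2⟩, ?_⟩
              rw [hr'w u hu.1.2, hr'w w hw]
              exact hu.2
            have e2 : (((nb R w ∩ Ch).filter (fun u => r u < r w)).card : ℝ) ≤
                (((nb R w ∩ insert v Ch).filter (fun u => r' u < r' w)).card : ℝ) := by
              exact_mod_cast e1
            linarith
    exact absurd (hmax _ (hmem _ hok')) (not_le.2 hinc)
  refine ⟨y, Ch, Fl, I, r, h, hy1, ?_, ?_, ?_⟩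
  · intro v hv hF
    refine key 1 (Or.inl rfl) (fun v hv h1 => hg1 v hv (by rwa [one_mul] at h1)) v hv ?_
    rwa [one_mul]
  · intro v hv hF
    refine key (-1) (Or.inr rfl) (fun v hv h1 => hg2 v hv (by linarith)) v hv ?_
    linarith
  · -- the hubs
    intro u hu
    by_contra hlt
    rw [not_le] at hlt
    have hyS : y u = 1 ∨ y u = -1 := by
      have huCh : u ∉ Ch := fun h1 => hChS u h1 hu
      by_cases h3 : u ∈ Fl
      · rcases h.fl u h3 with h2 | h2 <;> rcases hxS u hu with h4 | h4 <;> rw [h2, h4] <;>
          norm_num
      · rw [h.off u huCh h3]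
        exact hxS u hu
    have huCh : u ∉ Ch := fun h1 => hChS u h1 hu
    have hJ2 : J * J = 1 := by rcases hJ with rfl | rfl <;> norm_num
    have hyu2 : y u * y u = 1 := by rcases hyS with h1 | h1 <;> rw [h1] <;> norm_num
    have hinc : en R J y < en R J (Function.update y u (-y u)) := by
      have h1 := en_update R hsymm hirr J y u (-y u)
      have h2 : 2 * (-y u - y u) * (J * ∑ w ∈ nb R u, y w) =
          4 * ∑ w ∈ nb R u, (-(J * y u)) * y w := by
        rw [← Finset.mul_sum]
        ring
      have h3 : 0 < ∑ w ∈ nb R u, (-(J * y u)) * y w := by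
        have h4 : ∀ w ∈ nb R u, (1 : ℝ) - (if y w ≠ -(J * y u) then 2 else 0) ≤
            (-(J * y u)) * y w := by
          intro w _
          by_cases h5 : y w ≠ -(J * y u)
          · rw [if_pos h5]
            have h6 : |(-(J * y u)) * y w| ≤ 1 := by
              rw [abs_mul, abs_neg, abs_mul]
              have h7 : |J| = 1 := by rcases hJ with rfl | rfl <;> norm_num
              have h8 : |y u| = 1 := by rcases hyS with h9 | h9 <;> rw [h9] <;> norm_num
              rw [h7, h8]
              have := hy1 w
              linarith
            have := (abs_le.1 h6).1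
            linarith
          · rw [if_neg h5]
            rw [not_not] at h5
            rw [h5]
            have : -(J * y u) * -(J * y u) = (J * J) * (y u * y u) := by ring
            rw [this, hJ2, hyu2]
            norm_num
        refine lt_of_lt_of_le ?_ (Finset.sum_le_sum h4)
        rw [Finset.sum_sub_distrib, ← Finset.sum_filter, Finset.sum_const, Finset.sum_const,
          nsmul_eq_mul, nsmul_eq_mul, mul_one]
        have h5 := hD u hu
        unfold dg at h5
        have h6 : 2 * ((nb R u).filter (fun v => y v ≠ -(J * y u))).card < (nb R u).card := by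
          omega
        have h7 : 2 * (((nb R u).filter (fun v => y v ≠ -(J * y u))).card : ℝ) <
            ((nb R u).card : ℝ) := by exact_mod_cast h6
        linarith
      linarith
    have hok' : ok (Function.update y u (-y u)) := by
      by_cases huFl : u ∈ Fl
      · refine ⟨Ch, Fl, I, r, h.chQ, h.flS, ?_, ?_, ?_, h.icard, h.imaj, h.cnt⟩
        · intro w hw1 hw2
          have : w ≠ u := fun h1 => hw2 (h1 ▸ huFl)
          rw [Function.update_of_ne this]
          exact h.off w hw1 hw2
        · intro w hw
          have : w ≠ u := fun h1 => huCh (h1 ▸ hw)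
          rw [Function.update_of_ne this]
          exact h.ch w hw
        · intro w hw
          by_cases h1 : w = u
          · rw [h1, Function.update_self]
            rcases h.fl u huFl with h2 | h2
            · right; rw [h2]
            · left; rw [h2, neg_neg]
          · rw [Function.update_of_ne h1]
            exact h.fl w hw
      · have hyx : y u = x u := h.off u huCh huFl
        set I' : V → Finset V := Function.update I u
          ((nb R u).filter (fun v => y v ≠ -(J * y u))) with hI'
        have hI'u : I' u = (nb R u).filter (fun v => y v ≠ -(J * y u)) := by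
          rw [hI', Function.update_self]
        have hI'w : ∀ w ∈ Fl, I' w = I w := by
          intro w hw
          have : w ≠ u := fun h1 => huFl (h1 ▸ hw)
          rw [hI', Function.update_of_ne this]
        refine ⟨Ch, insert u Fl, I', r, h.chQ, ?_, ?_, ?_, ?_, ?_, ?_, ?_⟩
        · intro w hw
          rcases Finset.mem_insert.1 hw with rfl | hw
          · exact hu
          · exact h.flS hw
        · intro w hw1 hw2
          rw [Finset.mem_insert, not_or] at hw2
          rw [Function.update_of_ne hw2.1]
          exact h.off w hw1 hw2.2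
        · intro w hw
          have : w ≠ u := fun h1 => huCh (h1 ▸ hw)
          rw [Function.update_of_ne this]
          exact h.ch w hw
        · intro w hw
          by_cases h1 : w = u
          · rw [h1, Function.update_self, hyx]
            right; rfl
          · rw [Function.update_of_ne h1]
            exact h.fl w ((Finset.mem_insert.1 hw).resolve_left h1)
        · intro w hw
          by_cases h1 : w = u
          · rw [h1, hI'u]
            exact hlt.le
          · have h2 := (Finset.mem_insert.1 hw).resolve_left h1
            rw [hI'w w h2]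
            exact h.icard w h2
        · intro w hw v hv
          by_cases h1 : w = u
          · subst h1
            rw [hI'u]
            by_cases h2 : y v = -(J * y w)
            · by_cases h3 : v ∈ Ch
              · exact Or.inr (Or.inl h3)
              · right; right
                have h4 : v ∉ Fl := fun h5 => hSS w hu v (mem_nb.1 hv) (h.flS h5)
                rw [← h.off v h3 h4, ← hyx]
                exact h2
            · exact Or.inl (Finset.mem_filter.2 ⟨hv, h2⟩)
          · have h2 := (Finset.mem_insert.1 hw).resolve_left h1
            rw [hI'w w h2]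
            exact h.imaj w h2 v hv
        · intro w hw
          refine (h.cnt w hw).trans ?_
          have e1 : ((nb R w ∩ Fl).filter (fun u' => w ∈ I u')).card ≤
              ((nb R w ∩ insert u Fl).filter (fun u' => w ∈ I' u')).card := by
            apply Finset.card_le_card
            intro u' hu'
            simp only [Finset.mem_filter, Finset.mem_inter, Finset.mem_insert] at hu' ⊢
            refine ⟨⟨hu'.1.1, Or.inr hu'.1.2⟩, ?_⟩
            rw [hI'w u' hu'.1.2]
            exact hu'.2
          have e2 : (((nb R w ∩ Fl).filter (fun u' => w ∈ I u')).card : ℝ) ≤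
              (((nb R w ∩ insert u Fl).filter (fun u' => w ∈ I' u')).card : ℝ) := by
            exact_mod_cast e1
          linarith
    exact absurd (hmax _ (hmem _ hok')) (not_le.2 hinc)

end Pool.Agent.helper83.Bis
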