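import Pool.Agent.helper83.Bis.Cascade

set_option autoImplicit false

/-!
# The number of changes in the cascade
-/

namespace Pool.Agent.helper83.Bis

open Finset Pool.Agent.helper2.Bis

theorem count_closed {V : Type} [Fintype V] [DecidableEq V] (R : V → V → Prop)
    (hsymm : ∀ u v, R u v → R v u) (s B : ℝ) (hs : 0 < s) (hB : 0 < B) (hBs : 2 ≤ s * B)
    (Ch : Finset V) (h : V → ℕ) (r : V → ℕ)
    (hcnt : ∀ v ∈ Ch, s ≤ (((nb R v ∩ Ch).filter (fun w => r w < r v)).card : ℝ) + h v)
    (hsp : ∀ Y ⊆ Ch, RConn R Y → B ≤ Y.card → ((∑ v ∈ Y, (nb R v ∩ Y).card : ℕ) : ℝ) ≤ s * Y.card) :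
    ∀ (n : ℕ) (A : Finset V), A.card = n → A ⊆ Ch → (∀ a ∈ A, ∀ w, R a w → w ∈ Ch → w ∈ A) →
      (A.card : ℝ) ≤ B * ∑ v ∈ A, (h v : ℝ) := by
  classical
  intro n
  induction n using Nat.strong_induction_on with
  | _ n ih =>
    intro A hAn hACh hAcl
    rcases Finset.eq_empty_or_nonempty A with rfl | hAne
    · simp
    by_cases hconn : RConn R A
    · by_cases hAB : B ≤ A.card
      · -- a large connected set
        have h1 : s * A.card ≤ ∑ v ∈ A, ((((nb R v ∩ Ch).filter (fun w => r w < r v)).card : ℝ) +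
            h v) := by
          rw [mul_comm, ← nsmul_eq_mul]
          exact Finset.card_nsmul_le_sum _ _ _ (fun v hv => hcnt v (hACh hv))
        rw [Finset.sum_add_distrib] at h1
        have h2 : 2 * ∑ v ∈ A, ((nb R v ∩ Ch).filter (fun w => r w < r v)).card ≤
            ∑ v ∈ A, (nb R v ∩ A).card := by
          have e1 : ∀ v ∈ A, (nb R v ∩ Ch).filter (fun w => r w < r v) =
              (nb R v ∩ A).filter (fun w => r w < r v) := by
            intro v hv
            ext w
            simp only [Finset.mem_filter, Finset.mem_inter, mem_nb]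
            constructor
            · rintro ⟨⟨a1, a2⟩, a3⟩
              exact ⟨⟨a1, hAcl v hv w a1 a2⟩, a3⟩
            · rintro ⟨⟨a1, a2⟩, a3⟩
              exact ⟨⟨a1, hACh a2⟩, a3⟩
          rw [Finset.sum_congr rfl (fun v hv => by rw [e1 v hv])]
          have e2 : ∑ v ∈ A, ((nb R v ∩ A).filter (fun w => r w < r v)).card =
              ∑ v ∈ A, ∑ w ∈ A, if R v w ∧ r w < r v then 1 else 0 := by
            refine Finset.sum_congr rfl fun v _ => ?_
            rw [Finset.sum_boole]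
            simp only [Nat.cast_id]
            congr 1
            ext w
            simp only [Finset.mem_filter, Finset.mem_inter, mem_nb]
            tauto
          have e3 : ∑ v ∈ A, ((nb R v ∩ A).filter (fun w => r w < r v)).card =
              ∑ v ∈ A, ∑ w ∈ A, if R v w ∧ r v < r w then 1 else 0 := by
            rw [e2, Finset.sum_comm]
            refine Finset.sum_congr rfl fun v _ => Finset.sum_congr rfl fun w _ => ?_
            have : (R w v ∧ r v < r w) ↔ (R v w ∧ r v < r w) :=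
              ⟨fun a => ⟨hsymm _ _ a.1, a.2⟩, fun a => ⟨hsymm _ _ a.1, a.2⟩⟩
            simp only [this]
          have e4 : ∑ v ∈ A, (nb R v ∩ A).card = ∑ v ∈ A, ∑ w ∈ A, if R v w then 1 else 0 := by
            refine Finset.sum_congr rfl fun v _ => ?_
            rw [Finset.sum_boole]
            simp only [Nat.cast_id]
            congr 1
            ext w
            simp only [Finset.mem_filter, Finset.mem_inter, mem_nb]
            tauto
          rw [two_mul, e4]
          nth_rewrite 1 [e2]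
          rw [e3, ← Finset.sum_add_distrib]
          refine Finset.sum_le_sum fun v _ => ?_
          rw [← Finset.sum_add_distrib]
          refine Finset.sum_le_sum fun w _ => ?_
          by_cases a1 : R v w
          · by_cases a2 : r w < r v
            · have a3 : ¬ r v < r w := not_lt.2 a2.le
              simp [a1, a2, a3]
            · simp only [a1, a2, true_and, if_true, if_false, zero_add]
              split_ifs <;> omega
          · simp [a1]
        have h3 := hsp A hACh hconn hAB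
        have h4 : 2 * ((∑ v ∈ A, ((nb R v ∩ Ch).filter (fun w => r w < r v)).card : ℕ) : ℝ) ≤
            ((∑ v ∈ A, (nb R v ∩ A).card : ℕ) : ℝ) := by exact_mod_cast h2
        push_cast at h3 h4
        have h5 : s / 2 * A.card ≤ ∑ v ∈ A, (h v : ℝ) := by linarith
        have h6 : (1 : ℝ) * A.card ≤ (B * (s / 2)) * A.card :=
          mul_le_mul_of_nonneg_right (by linarith) (Nat.cast_nonneg _)
        calc (A.card : ℝ) = 1 * A.card := (one_mul _).symm
          _ ≤ (B * (s / 2)) * A.card := h6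
          _ = B * (s / 2 * A.card) := by ring
          _ ≤ _ := mul_le_mul_of_nonneg_left h5 hB.le
      · -- a small set
        rw [not_le] at hAB
        obtain ⟨v0, hv0, hmin⟩ := Finset.exists_min_image A r hAne
        have h1 : (nb R v0 ∩ Ch).filter (fun w => r w < r v0) = ∅ := by
          rw [Finset.filter_eq_empty_iff]
          intro w hw
          rw [Finset.mem_inter, mem_nb] at hw
          exact not_lt.2 (hmin w (hAcl v0 hv0 w hw.1 hw.2))
        have h2 := hcnt v0 (hACh hv0)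
        rw [h1, Finset.card_empty, Nat.cast_zero, zero_add] at h2
        have h3 : (0 : ℝ) < h v0 := lt_of_lt_of_le hs h2
        have h4 : 1 ≤ h v0 := by
          have : 0 < h v0 := by exact_mod_cast h3
          exact this
        have h5 : (1 : ℝ) ≤ ∑ v ∈ A, (h v : ℝ) := by
          have a1 : (1 : ℝ) ≤ h v0 := by exact_mod_cast h4
          exact a1.trans (Finset.single_le_sum (f := fun v => (h v : ℝ))
            (fun v _ => Nat.cast_nonneg _) hv0)
        calc (A.card : ℝ) ≤ B * 1 := by linarith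
          _ ≤ _ := mul_le_mul_of_nonneg_left h5 hB.le
    · -- a disconnected set
      unfold RConn at hconn
      push Not at hconn
      obtain ⟨A1, hA1, hA1ne, hA2ne, hno⟩ := hconn
      have hc1 : A1.card < n := by
        rw [← hAn]
        apply Finset.card_lt_card
        refine ⟨hA1, fun hsub => ?_⟩
        obtain ⟨b, hb⟩ := hA2ne
        rw [Finset.mem_sdiff] at hb
        exact hb.2 (hsub hb.1)
      have hc2 : (A \ A1).card < n := by
        rw [← hAn]
        apply Finset.card_lt_card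
        refine ⟨Finset.sdiff_subset, fun hsub => ?_⟩
        obtain ⟨a, ha⟩ := hA1ne
        exact (Finset.mem_sdiff.1 (hsub (hA1 ha))).2 ha
      have i1 := ih _ hc1 A1 rfl (hA1.trans hACh) (by
        intro a ha w hw hwC
        have h1 := hAcl a (hA1 ha) w hw hwC
        by_contra h2
        exact hno a ha w (Finset.mem_sdiff.2 ⟨h1, h2⟩) hw)
      have i2 := ih _ hc2 (A \ A1) rfl (Finset.sdiff_subset.trans hACh) (by
        intro a ha w hw hwC
        have h1 := hAcl a (Finset.mem_sdiff.1 ha).1 w hw hwC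
        rw [Finset.mem_sdiff]
        refine ⟨h1, fun h2 => ?_⟩
        exact hno w h2 a ha (hsymm _ _ hw))
      have h1 : ∑ v ∈ A \ A1, (h v : ℝ) + ∑ v ∈ A1, (h v : ℝ) = ∑ v ∈ A, (h v : ℝ) :=
        Finset.sum_sdiff hA1
      have h2 : (A \ A1).card + A1.card = A.card := Finset.card_sdiff_add_card_eq_card hA1
      have h3 : ((A \ A1).card : ℝ) + A1.card = A.card := by exact_mod_cast h2
      rw [← h1, mul_add, ← h3]
      linarith

/-- **The cascade lemma.** -/
theorem cascade {V : Type} [Fintype V] [DecidableEq V] (R : V → V → Prop)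
    (hsymm : ∀ u v, R u v → R v u) (hirr : ∀ v, ¬ R v v) (J : ℝ) (hJ : J = 1 ∨ J = -1)
    (H S Q : Finset V) (hSH : S ⊆ H) (hQH : Disjoint Q H) (hSS : ∀ u ∈ S, ∀ v, R u v → v ∉ H)
    (x : V → ℝ) (hx1 : ∀ v, |x v| ≤ 1) (hxS : ∀ u ∈ S, x u = 1 ∨ x u = -1)
    (t0 t1 : V → ℝ) (s B : ℝ) (hs : 0 < s) (hB : 0 < B) (hBs : 2 ≤ s * B)
    (ht1 : ∀ v ∈ Q, 0 ≤ t1 v) (hts : ∀ v ∈ Q, t0 v + 2 * s ≤ t1 v)
    (hg1 : ∀ v ∈ Q, t0 v < J * ∑ w ∈ nb R v, x w → x v = 1)
    (hg2 : ∀ v ∈ Q, J * ∑ w ∈ nb R v, x w < -t0 v → x v = -1)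
    (hsp : ∀ Y ⊆ Q, RConn R Y → B ≤ Y.card → ((∑ v ∈ Y, (nb R v ∩ Y).card : ℕ) : ℝ) ≤ s * Y.card)
    (m D N0 : ℕ) (hD : ∀ u ∈ S, D ≤ dg R u) (hm : ∀ v, (nb R v ∩ S).card ≤ m)
    (hDN : 2 * ((N0 : ℝ) + m * B * N0) ≤ D) :
    ∃ (y : V → ℝ) (Ch Fl : Finset V), Ch ⊆ Q ∧ Fl ⊆ S ∧ (∀ v, v ∉ Ch → v ∉ Fl → y v = x v) ∧
      (∀ v ∈ Ch, y v = 1 ∨ y v = -1) ∧ (∀ u ∈ Fl, y u = x u ∨ y u = -x u) ∧
      (∀ v ∈ Q, t1 v < J * ∑ w ∈ nb R v, y w → y v = 1) ∧
      (∀ v ∈ Q, J * ∑ w ∈ nb R v, y w < -t1 v → y v = -1) ∧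
      (∀ u ∈ S, N0 ≤ ((nb R u).filter (fun v => y v ≠ -(J * y u))).card) ∧
      (Ch.card : ℝ) ≤ B * (N0 * Fl.card) ∧
      (D : ℝ) * Fl.card ≤ 2 * m * ((univ.filter (fun v => v ∉ H ∧ x v ≠ 0)).card : ℝ) := by
  classical
  have hN0D : 2 * N0 ≤ D := by
    have h1 : (0 : ℝ) ≤ m * B * N0 := by positivity
    have h2 : 2 * (N0 : ℝ) ≤ D := by linarith
    exact_mod_cast h2
  obtain ⟨y, Ch, Fl, I, r, h, hy1, c1, c2, c3⟩ := cascade_run R hsymm hirr J hJ S Q
    (Finset.disjoint_left.2 fun v h1 h2 => Finset.disjoint_left.1 hQH h2 (hSH h1))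
    (fun u hu v huv hv => hSS u hu v huv (hSH hv)) x hx1 hxS t0 t1 s ht1 hts hg1 hg2 N0
    (fun u hu => hN0D.trans (hD u hu))
  have hCh : (Ch.card : ℝ) ≤ B * (N0 * Fl.card) := by
    have h1 := count_closed R hsymm s B hs hB hBs Ch
      (fun v => ((nb R v ∩ Fl).filter (fun u => v ∈ I u)).card) r h.cnt
      (fun Y hY => hsp Y (hY.trans h.chQ)) _ Ch rfl (Finset.Subset.refl _) (fun a _ w _ hw => hw)
    refine h1.trans (mul_le_mul_of_nonneg_left ?_ hB.le)
    have h2 : ∑ v ∈ Ch, ((nb R v ∩ Fl).filter (fun u => v ∈ I u)).card ≤ ∑ u ∈ Fl, (I u).card := by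
      have e1 : ∀ v ∈ Ch, ((nb R v ∩ Fl).filter (fun u => v ∈ I u)).card ≤
          ∑ u ∈ Fl, if v ∈ I u then 1 else 0 := by
        intro v _
        rw [Finset.sum_boole]
        simp only [Nat.cast_id]
        apply Finset.card_le_card
        intro u hu
        simp only [Finset.mem_filter, Finset.mem_inter] at hu ⊢
        exact ⟨hu.1.2, hu.2⟩
      refine (Finset.sum_le_sum e1).trans ?_
      rw [Finset.sum_comm]
      refine Finset.sum_le_sum fun u _ => ?_
      rw [Finset.sum_boole]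
      simp only [Nat.cast_id]
      apply Finset.card_le_card
      intro v hv
      exact (Finset.mem_filter.1 hv).2
    have h3 : ∑ u ∈ Fl, (I u).card ≤ N0 * Fl.card := by
      refine (Finset.sum_le_card_nsmul _ _ N0 h.icard).trans (le_of_eq ?_)
      rw [smul_eq_mul, mul_comm]
    have h4 : (∑ v ∈ Ch, ((nb R v ∩ Fl).filter (fun u => v ∈ I u)).card : ℕ) ≤ N0 * Fl.card :=
      h2.trans h3
    exact_mod_cast h4
  refine ⟨y, Ch, Fl, h.chQ, h.flS, h.off, h.ch, h.fl, c1, c2, c3, hCh, ?_⟩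
  set X : Finset V := univ.filter (fun v => v ∉ H ∧ x v ≠ 0) with hX
  have h1 : ∀ u ∈ Fl, D ≤ N0 + (nb R u ∩ (Ch ∪ X)).card := by
    intro u hu
    have huS := h.flS hu
    refine (hD u huS).trans ?_
    have h2 : nb R u ⊆ I u ∪ (nb R u ∩ (Ch ∪ X)) := by
      intro v hv
      rcases h.imaj u hu v hv with h3 | h3 | h3
      · exact Finset.mem_union_left _ h3
      · exact Finset.mem_union_right _ (Finset.mem_inter.2 ⟨hv, Finset.mem_union_left _ h3⟩)
      · refine Finset.mem_union_right _ (Finset.mem_inter.2 ⟨hv, Finset.mem_union_right _ ?_⟩)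
        rw [hX, Finset.mem_filter]
        refine ⟨Finset.mem_univ _, hSS u huS v (mem_nb.1 hv), ?_⟩
        rw [h3]
        rcases hJ with rfl | rfl <;> rcases hxS u huS with h4 | h4 <;> rw [h4] <;> norm_num
    have h3 := (Finset.card_le_card h2).trans (Finset.card_union_le _ _)
    have h4 := h.icard u hu
    unfold dg
    omega
  have h2 : D * Fl.card ≤ N0 * Fl.card + m * (Ch ∪ X).card := by
    have e1 : ∑ _u ∈ Fl, D ≤ ∑ u ∈ Fl, (N0 + (nb R u ∩ (Ch ∪ X)).card) := Finset.sum_le_sum h1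
    rw [Finset.sum_const, smul_eq_mul, Finset.sum_add_distrib, Finset.sum_const, smul_eq_mul] at e1
    have e2 : ∑ u ∈ Fl, (nb R u ∩ (Ch ∪ X)).card ≤ m * (Ch ∪ X).card := by
      have e3 : ∀ u ∈ Fl, (nb R u ∩ (Ch ∪ X)).card = ∑ v ∈ Ch ∪ X, if R u v then 1 else 0 := by
        intro u _
        rw [Finset.sum_boole]
        simp only [Nat.cast_id]
        congr 1
        ext w
        simp only [Finset.mem_filter, Finset.mem_inter, mem_nb]
        tauto
      rw [Finset.sum_congr rfl e3, Finset.sum_comm]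
      have e4 : ∀ v ∈ Ch ∪ X, ∑ u ∈ Fl, (if R u v then 1 else 0) ≤ m := by
        intro v _
        rw [Finset.sum_boole]
        simp only [Nat.cast_id]
        refine (Finset.card_le_card ?_).trans (hm v)
        intro u hu
        rw [Finset.mem_filter] at hu
        rw [Finset.mem_inter, mem_nb]
        exact ⟨hsymm _ _ hu.2, h.flS hu.1⟩
      refine (Finset.sum_le_card_nsmul _ _ m e4).trans (le_of_eq ?_)
      rw [smul_eq_mul, mul_comm]
    have e5 : Fl.card * D = D * Fl.card := mul_comm _ _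
    have e6 : Fl.card * N0 = N0 * Fl.card := mul_comm _ _
    omega
  have h3 : ((Ch ∪ X).card : ℝ) ≤ Ch.card + X.card := by exact_mod_cast Finset.card_union_le _ _
  have h4 : (D : ℝ) * Fl.card ≤ N0 * Fl.card + m * (Ch ∪ X).card := by exact_mod_cast h2
  have h5 : (m : ℝ) * (Ch ∪ X).card ≤ m * (Ch.card + X.card) :=
    mul_le_mul_of_nonneg_left h3 (Nat.cast_nonneg _)
  have h6 : (m : ℝ) * Ch.card ≤ m * (B * (N0 * Fl.card)) :=
    mul_le_mul_of_nonneg_left hCh (Nat.cast_nonneg _)
  have h7 : (2 * ((N0 : ℝ) + m * B * N0)) * Fl.card ≤ D * Fl.card :=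
    mul_le_mul_of_nonneg_right hDN (Nat.cast_nonneg _)
  nlinarith

end Pool.Agent.helper83.Bis
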